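import Pool.Agent.Helper5.WD.Stmts
import Pool.Agent.Helper80.FV.TLB

/-!
# WD, row XTLB: few vertices have a colour used on `W0` (adapted from helper80's FV row TLB)
-/

set_option autoImplicit false

open Finset Pool.Agent.Helper8.UN Pool.Agent.Helper5.FV

namespace Pool.Agent.Helper5.WD

/-- few vertices have a colour used on `W0` -/
theorem st_XTLB (h1 : ST_CLS) (h2 : ST_FBC) : ST_XTLB := by
  classical
  intro n D k L E W0 hE hB
  set F := (QQ E W0).filter (fun Q => L + W0.card ≤ (un Q).card) with hF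
  set S := (CC E univ k).filter (fun f => cls W0 f ∈ F) with hS
  have e1 : ∑ Q ∈ F, k.descFactorial Q.card * PP E (univ \ un Q) (k - Q.card) = S.card := by
    have h4 := Finset.card_eq_sum_card_fiberwise (f := cls W0) (s := S) (t := F)
      (fun f hf => (Finset.mem_filter.1 hf).2)
    rw [h4]
    refine Finset.sum_congr rfl fun Q hQ => ?_
    rw [← h2 n k E W0 Q hE (Finset.mem_filter.1 hQ).1]
    congr 1
    ext f
    simp only [hS, Finset.mem_filter]
    constructor
    · rintro ⟨ha, hb⟩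
      exact ⟨⟨ha, hb ▸ hQ⟩, hb⟩
    · rintro ⟨⟨ha, -⟩, hb⟩
      exact ⟨ha, hb⟩
  rw [e1]
  set TT := (Finset.powersetCard L (univ : Finset (Fin n))).filter (fun T => Disjoint T W0)
    with hTT
  have hcover : S ⊆ TT.biUnion (fun T => tlb_S E W0 T k) := by
    intro f hf
    obtain ⟨hfC, hfF⟩ := Finset.mem_filter.1 hf
    obtain ⟨-, hL⟩ := Finset.mem_filter.1 hfF
    have hu := (h1 n k E W0 f hE hfC).2.2
    rw [hu] at hL
    set Y := univ.filter (fun y => ∃ u ∈ W0, f y = f u) with hY
    have hWY : W0 ⊆ Y := fun u hu => Finset.mem_filter.2 ⟨Finset.mem_univ _, u, hu, rfl⟩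
    have hYc : L ≤ (Y \ W0).card := by
      rw [Finset.card_sdiff_of_subset hWY]
      omega
    obtain ⟨T, hTY, hTc⟩ := Finset.exists_subset_card_eq hYc
    refine Finset.mem_biUnion.2 ⟨T, ?_, ?_⟩
    · refine Finset.mem_filter.2 ⟨Finset.mem_powersetCard.2 ⟨Finset.subset_univ _, hTc⟩, ?_⟩
      exact Finset.disjoint_of_subset_left hTY Finset.sdiff_disjoint
    · refine Finset.mem_filter.2 ⟨hfC, fun y hy => ?_⟩
      exact (Finset.mem_filter.1 (Finset.mem_sdiff.1 (hTY hy)).1).2
  have hT : ∀ T ∈ TT, (k - D) ^ L * (tlb_S E W0 T k).card ≤ W0.card ^ L * PP E univ k := by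
    intro T hT
    obtain ⟨hTp, hTd⟩ := Finset.mem_filter.1 hT
    have hTc : T.card = L := (Finset.mem_powersetCard.1 hTp).2
    have h5 := tlb_card (k := k) E W0 T hTd
    have h6 := hB (univ \ T) T hTd Finset.sdiff_disjoint
    rw [Finset.sdiff_union_of_subset (Finset.subset_univ T), hTc] at h6
    rw [hTc] at h5
    calc (k - D) ^ L * (tlb_S E W0 T k).card ≤
        (k - D) ^ L * (PP E (univ \ T) k * W0.card ^ L) := Nat.mul_le_mul_left _ h5
      _ = W0.card ^ L * ((k - D) ^ L * PP E (univ \ T) k) := by ring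
      _ ≤ W0.card ^ L * PP E univ k := Nat.mul_le_mul_left _ h6
  calc (k - D) ^ L * S.card ≤ (k - D) ^ L * ∑ T ∈ TT, (tlb_S E W0 T k).card :=
        Nat.mul_le_mul_left _ ((Finset.card_le_card hcover).trans Finset.card_biUnion_le)
    _ = ∑ T ∈ TT, (k - D) ^ L * (tlb_S E W0 T k).card := Finset.mul_sum _ _ _
    _ ≤ ∑ T ∈ TT, W0.card ^ L * PP E univ k := Finset.sum_le_sum hT
    _ = TT.card * (W0.card ^ L * PP E univ k) := by rw [Finset.sum_const, smul_eq_mul]
    _ ≤ n.choose L * (W0.card ^ L * PP E univ k) := by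
        refine Nat.mul_le_mul_right _ ?_
        refine (Finset.card_filter_le _ _).trans (le_of_eq ?_)
        rw [Finset.card_powersetCard, Finset.card_univ, Fintype.card_fin]
    _ = n.choose L * W0.card ^ L * PP E univ k := by ring

end Pool.Agent.Helper5.WD
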